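import Pool.Agent.Lib.lead.CXGraphRed
import Pool.Agent.Lib.helper25.CX2

namespace Pool.Agent.H.MP_292d26_lc

open Pool.Agent.Lib.CX Pool.Agent.Lib.CX2

def CM {α β : Type} (p : α → α → Prop) (q : β → β → Prop) : Prop :=
  ∃ f : β → α, ∀ c : List α, c.IsChain p → ∃ d : List β, d.IsChain q ∧ d.map f = c

def IsPo (a : Gr) : Prop := (∀ u, ¬a.arc u u) ∧ ∀ u v w, a.arc u v → a.arc v w → a.arc u w

theorem full {α β : Type} [Inhabited β] {p : α → α → Prop} {q : β → β → Prop} (rp : α → ℕ) (rq : β → ℕ) (M : ℕ)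
    (hp : ∀ a b, p a b ↔ rp a < rp b) (bp : ∀ a, rp a ≤ M) (ne : ∀ l ≤ M, ∃ a, rp a = l)
    (hq : ∀ a b, q a b → rq a < rq b) (bq : ∀ a, rq a ≤ M) (tq : ∀ a b c, q a b → q b c → q a c) :
    CM p q ↔ ∃ f : β → α, ∀ w : ℕ → α, (∀ l ≤ M, rp (w l) = l) → ∃ g : ℕ → β,
      (∀ l ≤ M, rq (g l) = l ∧ f (g l) = w l) ∧ ∀ l l', l < l' → l' ≤ M → q (g l) (g l') := by
  refine exists_congr fun f => ⟨fun h w hw => ?_, fun h c hc => ?_⟩
  · obtain ⟨d, h1, h2⟩ := h ((List.range (M + 1)).map w) ((List.isChain_map _).2 ((List.isChain_range_succ _ _).2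
      fun m hm => by rw [hp, hw _ hm.le, hw _ hm]; exact Nat.lt_succ_self _))
    have len : d.length = M + 1 := by simpa using congrArg List.length h2
    have : Trans q q q := ⟨tq _ _ _⟩
    have h3 : ∀ l l', l < l' → l' ≤ M → q (d.getD l default) (d.getD l' default) := fun l l' a b => by
      rw [List.getD_eq_getElem _ _ (by omega), List.getD_eq_getElem _ _ (by omega)]
      exact List.pairwise_iff_getElem.1 h1.pairwise _ _ _ _ a
    have h4 : ∀ j l, l + j ≤ M → rq (d.getD l default) + j ≤ rq (d.getD (l + j) default) := fun j => by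
      induction j with
      | zero => simp
      | succ j ih =>
        intro l hl
        have := ih l (by omega)
        have := hq _ _ (h3 (l + j) (l + (j + 1)) (by omega) hl)
        omega
    refine ⟨fun l => d.getD l default, fun l hl => ⟨?_, ?_⟩, h3⟩ <;> beta_reduce
    · have a1 := h4 l 0 (by omega)
      have a2 := h4 (M - l) l (by omega)
      have := bq (d.getD (l + (M - l)) default)
      rw [zero_add] at a1
      omega
    · have := congrArg (fun x => x[l]?) h2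
      simp only [List.getElem?_map] at this
      rw [List.getElem?_eq_getElem (by omega), List.getElem?_range (by omega)] at this
      rw [List.getD_eq_getElem _ _ (by omega)]
      simpa using this
  · have : Trans p p p := ⟨fun {a b c} h1 h2 => (hp _ _).2 (((hp _ _).1 h1).trans ((hp _ _).1 h2))⟩
    have ex : ∀ l, ∃ a, (l ≤ M → rp a = l) ∧ ∀ b ∈ c, rp b = l → a = b := fun l => by
      by_cases e : ∃ b ∈ c, rp b = l
      · obtain ⟨b, h1, h2⟩ := e
        refine ⟨b, fun _ => h2, fun b' h3 h4 => by_contra fun n => ?_⟩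
        have : Std.Symm fun a b => rp a ≠ rp b := ⟨fun _ _ h => h.symm⟩
        exact (hc.pairwise.imp (S := fun a b => rp a ≠ rp b) fun h => ((hp _ _).1 h).ne).forall h1 h3 n
          (h2.trans h4.symm)
      · obtain ⟨a, ha⟩ := ne (min l M) (min_le_right _ _)
        exact ⟨a, fun h => ha.trans (min_eq_left h), fun b h1 h2 => (e ⟨b, h1, h2⟩).elim⟩
    choose w h1 h2 using ex
    obtain ⟨g, h3, h4⟩ := h w h1
    refine ⟨c.map fun a => g (rp a), (List.isChain_map _).2 (hc.imp fun a b h => h4 _ _ ((hp _ _).1 h) (bp _)), ?_⟩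
    rw [List.map_map]
    exact (List.map_congr_left fun a ha => (h3 _ (bp a)).2.trans (h2 _ _ ha rfl)).trans (List.map_id _)

/-- the poset input with named elements -/
abbrev mkPo {V : Type} [DecidableEq V] (vs : List V) (r : V → V → Bool) : Gr :=
  mkGr vs ((vs ×ˢ vs).filter fun e => r e.1 e.2)

theorem mkPo_arc {V : Type} [DecidableEq V] (vs : List V) (r : V → V → Bool) (u v : Fin (mkPo vs r).n) :
    (mkPo vs r).arc u v ↔ r (mkGrEquiv vs _ u).1 (mkGrEquiv vs _ v).1 := by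
  refine (mkGr_arc _ _ _ _).trans ?_
  have a : (mkGrEquiv vs _ u).1 ∈ vs := (mkGrEquiv vs _ u).2
  have b : (mkGrEquiv vs _ v).1 ∈ vs := (mkGrEquiv vs _ v).2
  simp [a, b]

theorem mkPo_po {V : Type} [DecidableEq V] (vs : List V) (r : V → V → Bool) (rk : V → ℕ)
    (h : ∀ a b, r a b → rk a < rk b) (t : ∀ a ∈ vs, ∀ b ∈ vs, ∀ c ∈ vs, r a b → r b c → r a c) : IsPo (mkPo vs r) :=
  ⟨fun _ e => (h _ _ ((mkPo_arc _ _ _ _).1 e)).false, fun u v w a b => (mkPo_arc _ _ _ _).2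
    (t _ (mkGrEquiv vs _ u).2 _ (mkGrEquiv vs _ v).2 _ (mkGrEquiv vs _ w).2 ((mkPo_arc _ _ _ _).1 a)
      ((mkPo_arc _ _ _ _).1 b))⟩

theorem full_mk {α β : Type} [DecidableEq α] [DecidableEq β] (vp : List α) (vq : List β) (q : β → β → Bool)
    (rp : α → ℕ) (rq : β → ℕ) (M : ℕ) (bp : ∀ a ∈ vp, rp a ≤ M) (ne : ∀ l ≤ M, ∃ a ∈ vp, rp a = l)
    (nq : ∃ b, b ∈ vq) (hq : ∀ a b, q a b → rq a < rq b) (bq : ∀ a ∈ vq, rq a ≤ M)
    (tq : ∀ a ∈ vq, ∀ b ∈ vq, ∀ c ∈ vq, q a b → q b c → q a c) :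
    CM (mkPo vp fun a b => rp a < rp b).arc (mkPo vq q).arc ↔ ∃ f : β → α, (∀ b ∈ vq, f b ∈ vp) ∧
      ∀ w : ℕ → α, (∀ l ≤ M, w l ∈ vp ∧ rp (w l) = l) → ∃ g : ℕ → β,
      (∀ l ≤ M, g l ∈ vq ∧ rq (g l) = l ∧ f (g l) = w l) ∧ ∀ l l', l < l' → l' ≤ M → q (g l) (g l') := by
  set eP := mkGrEquiv vp ((vp ×ˢ vp).filter fun e => decide (rp e.1 < rp e.2))
  set eQ := mkGrEquiv vq ((vq ×ˢ vq).filter fun e => q e.1 e.2)
  obtain ⟨b0, hb⟩ := nq
  obtain ⟨a0, ha, -⟩ := ne 0 (Nat.zero_le _)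
  have : Inhabited (Fin (mkPo vq q).n) := ⟨eQ.symm ⟨b0, hb⟩⟩
  rw [full (fun u => rp (eP u).1) (fun u => rq (eQ u).1) M (fun a b => (mkPo_arc _ _ _ _).trans (by simp [eP]))
    (fun a => bp _ (eP a).2) (fun l hl => let ⟨a, h1, h2⟩ := ne l hl; ⟨eP.symm ⟨a, h1⟩, by simpa using h2⟩)
    (fun a b h => hq _ _ ((mkPo_arc _ _ _ _).1 h)) (fun a => bq _ (eQ a).2) (mkPo_po vq q rq hq tq).2]
  constructor
  · rintro ⟨f, h⟩
    refine ⟨fun b => if h : b ∈ vq then (eP (f (eQ.symm ⟨b, h⟩))).1 else a0, fun b hb => ?_, fun w hw => ?_⟩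
    · simp only [hb, dif_pos]; exact (eP _).2
    · obtain ⟨g, h1, h2⟩ := h (fun l => eP.symm ⟨w (min l M), (hw _ (min_le_right _ _)).1⟩) fun l hl => by
        simpa [min_eq_left hl] using (hw l hl).2
      refine ⟨fun l => (eQ (g l)).1, fun l hl => ⟨(eQ _).2, (h1 l hl).1, ?_⟩,
        fun l l' a b => (mkPo_arc _ _ _ _).1 (h2 l l' a b)⟩
      have : (eQ (g l)).1 ∈ vq := (eQ _).2
      simp [this, (h1 l hl).2, min_eq_left hl]
  · rintro ⟨f, h0, h⟩
    refine ⟨fun u => eP.symm ⟨f (eQ u).1, h0 _ (eQ u).2⟩, fun w hw => ?_⟩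
    obtain ⟨g, h1, h2⟩ := h (fun l => (eP (w l)).1) fun l hl => ⟨(eP _).2, hw l hl⟩
    refine ⟨fun l => eQ.symm ⟨g (min l M), (h1 _ (min_le_right _ _)).1⟩, fun l hl => ⟨?_, ?_⟩, fun l l' a b => ?_⟩
    · simpa [min_eq_left hl] using (h1 l hl).2.1
    · simp [min_eq_left hl, (h1 l hl).2.2]
    · refine (mkPo_arc _ _ _ _).2 ?_
      simpa [eQ, min_eq_left b, min_eq_left (a.le.trans b)] using h2 l l' a b

/-- the possible first elements of chains of `Q` mapped to `c` -/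
def st (x : Gr × List ℕ) : List ℕ → List ℕ
  | [] => []
  | a :: c => (List.range x.1.n).filter fun u => x.2.getD u 0 = a ∧ (c = [] ∨ ∃ v ∈ st x c, (u, v) ∈ x.1.2)

theorem mem_st (x : Gr × List ℕ) (c : List ℕ) : ∀ a u, u ∈ st x (a :: c) ↔ u < x.1.n ∧ ∃ d : List ℕ,
    (∀ y ∈ d, y < x.1.n) ∧ (u :: d).IsChain (fun a b => (a, b) ∈ x.1.2) ∧
      (u :: d).map (fun y => x.2.getD y 0) = a :: c := by
  induction c with
  | nil => intro a u; simp [st]
  | cons b c ih =>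
    intro a u
    rw [st]
    simp only [List.mem_filter, List.mem_range, ih, decide_eq_true_eq]
    refine and_congr_right fun hu => ⟨?_, ?_⟩
    · rintro ⟨rfl, h | ⟨v, ⟨h1, d, h2, h3, h4⟩, h5⟩⟩
      · cases h
      · exact ⟨v :: d, List.forall_mem_cons.2 ⟨h1, h2⟩, List.isChain_cons_cons.2 ⟨h5, h3⟩, by rw [List.map_cons, h4]⟩
    · rintro ⟨_ | ⟨v, d⟩, h1, h2, h3⟩
      · simp at h3
      · rw [List.map_cons, List.cons.injEq] at h3
        rw [List.isChain_cons_cons] at h2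
        rw [List.forall_mem_cons] at h1
        exact ⟨h3.1, .inr ⟨v, ⟨h1.1, d, h1.2, h2.2, h3.2⟩, h2.1⟩⟩

theorem pt_st : PT fun p : (Gr × List ℕ) × List ℕ => st p.1 p.2 :=
  PT.listRec (F := fun x a c s => (List.range x.1.n).filter fun u => x.2.getD u 0 = a ∧ (c = [] ∨ ∃ v ∈ s, (u, v) ∈ x.1.2))
    (B := fun p => size (List.range p.1.1.n) + 2) (PT.const _) (by fun_prop) (fun _ _ _ => rfl) (by fun_prop)
    fun a l => by
      cases l with
      | nil => exact Nat.le_add_left _ _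
      | cons b l => exact (size_sublist List.filter_sublist).trans (Nat.le_add_right _ _)

/-- the check of a map `f` against a list `c` -/
def W (x : Gr × Gr) (f c : List ℕ) : Prop := (∀ u < x.2.n, f.getD u 0 < x.1.n) ∧
  ((∀ a ∈ c, a < x.1.n) → (∀ i < c.length, i + 1 < c.length → (c.getD i 0, c.getD (i + 1) 0) ∈ x.1.2) →
    c = [] ∨ st (x.2, f) c ≠ [])

instance (x f c) : Decidable (W x f c) := by unfold W; infer_instance

theorem pt_W : PT fun p : (Gr × Gr) × List ℕ × List ℕ => decide (W p.1 p.2.1 p.2.2) := by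
  have : PT fun p : (Gr × Gr) × List ℕ × List ℕ => st (p.1.2, p.2.1) p.2.2 :=
    pt_st.comp (g := fun p : (Gr × Gr) × List ℕ × List ℕ => ((p.1.2, p.2.1), p.2.2)) (by fun_prop)
  unfold W; fun_prop

theorem chain_iff {R : ℕ → ℕ → Prop} {c : List ℕ} :
    (∀ i < c.length, i + 1 < c.length → R (c.getD i 0) (c.getD (i + 1) 0)) ↔ c.IsChain R := by
  rw [List.isChain_iff_getElem]
  refine forall_congr' fun i => ⟨fun h hi => ?_, fun h _ hi => ?_⟩
  · simpa [hi, Nat.lt_of_succ_lt hi] using h (by omega) hi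
  · simpa [hi, Nat.lt_of_succ_lt hi] using h hi

theorem size_le {l : List ℕ} {k n : ℕ} (h : ∀ x ∈ l, x < n) (hl : l.length ≤ k) : size l ≤ k * (3 * n + 3) + 2 := by
  have := size_list_le (l := l) (B := 3 * n + 2) fun x hx => by
    have := size_nat_le x
    have := h x hx
    omega
  exact this.trans (Nat.add_le_add_right (Nat.mul_le_mul_right _ hl) _)

def bd (x : Gr × Gr) : ℕ := (x.1.n + x.2.n) * (3 * x.1.n + 3) + 2

theorem sound {x : Gr × Gr} (hx : IsPo x.1) {f} (h : ∀ c, size c ≤ bd x → W x f c) : CM x.1.arc x.2.arc := by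
  have h0 := (h [] (Nat.le_add_left _ _)).1
  refine ⟨fun u => ⟨_, h0 u u.2⟩, fun c hc => ?_⟩
  have : Trans x.1.arc x.1.arc x.1.arc := ⟨hx.2 _ _ _⟩
  have nd : c.Nodup := hc.pairwise.imp (S := (· ≠ ·)) fun {a b} h (e : a = b) => hx.1 a (by subst e; exact h)
  have l : ∀ a ∈ c.map Fin.val, a < x.1.n := List.forall_mem_map.2 fun a _ => a.2
  have := (h (c.map Fin.val) (size_le l (by simpa using nd.length_le_card.trans (by simp)))).2 l
    ((chain_iff (R := fun a b => (a, b) ∈ x.1.2)).2 ((List.isChain_map Fin.val).2 hc))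
  rcases c with _ | ⟨a, c⟩
  · exact ⟨[], .nil, rfl⟩
  obtain ⟨u, hu⟩ := List.exists_mem_of_ne_nil _ (this.resolve_left (by simp))
  obtain ⟨h1, d, h2, h3, h4⟩ := (mem_st _ _ _ _).1 hu
  obtain ⟨e, he⟩ : ∃ e : List (Fin x.2.n), e.map Fin.val = u :: d := by
    have : ∀ y ∈ u :: d, y < x.2.n := List.forall_mem_cons.2 ⟨h1, h2⟩
    generalize u :: d = l at this
    lift l to List (Fin x.2.n) using this with e
    exact ⟨e, rfl⟩
  rw [← he] at h3 h4
  refine ⟨e, (List.isChain_map Fin.val).1 h3, List.map_injective_iff.2 Fin.val_injective ?_⟩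
  rw [List.map_map] at h4 ⊢
  exact h4

theorem complete {x : Gr × Gr} (h : CM x.1.arc x.2.arc) : ∃ f, size f ≤ bd x ∧ ∀ c, W x f c := by
  obtain ⟨f, h⟩ := h
  have g : ∀ u : Fin x.2.n, (List.ofFn fun u => (f u).1).getD u 0 = (f u).1 := fun u => by simp
  refine ⟨List.ofFn fun u => (f u).1, size_le (fun a ha => ?_) (by simp), fun c =>
    ⟨fun u hu => (g ⟨u, hu⟩).trans_lt (Fin.is_lt _), fun h1 h2 => ?_⟩⟩
  · obtain ⟨u, rfl⟩ := List.mem_ofFn.1 ha
    exact Fin.is_lt _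
  · lift c to List (Fin x.1.n) using h1
    obtain ⟨d, h3, rfl⟩ := h c ((List.isChain_map Fin.val).1 ((chain_iff (R := fun a b => (a, b) ∈ x.1.2)).1 h2))
    rcases d with _ | ⟨u, d⟩
    · exact .inl rfl
    · refine .inr (List.ne_nil_of_mem (a := u.1) ((mem_st _ _ _ _).2 ⟨u.2, d.map Fin.val,
        List.forall_mem_map.2 fun a _ => a.2, (List.isChain_map Fin.val (l := u :: d)).2 h3, ?_⟩))
      change ((u :: d).map Fin.val).map _ = ((u :: d).map f).map Fin.val
      rw [List.map_map, List.map_map]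
      exact List.map_congr_left fun a _ => g a

abbrev Inst := {x : Gr × Gr // IsPo x.1 ∧ IsPo x.2}

theorem sig2 : InSig2 fun x : Inst => CM x.1.1.arc x.1.2.arc :=
  InSig2.of_cert (fun x f c => W x.1 f c) (i := fun _ _ _ => inferInstance) (fun x => bd x.1)
    (pt_W.comp (g := fun p : Inst × List ℕ × List ℕ => (p.1.1, p.2)) (by fun_prop)) (by unfold bd; fun_prop)
    (fun a _ h => sound a.2.1 h) fun _ h => complete h

theorem np_ex {α γ : Type} [Enc α] [Enc γ] [Dec γ] {A : α × γ → Prop} (h : InNP A) {B : α → ℕ} (hB : PB B)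
    {A' : α → Prop} (sound : ∀ a c, A (a, c) → A' a) (complete : ∀ a, A' a → ∃ c, size c ≤ B a ∧ A (a, c)) :
    InNP A' := by
  obtain ⟨q, V, hV, h⟩ := h
  have := PB.size' (α := α)
  refine InNP.of_cert (fun a (c : γ × List Bool) => decide (c.2.length = q.eval (size (a, c.1))) && V ((a, c.1), c.2))
    (fun a => B a + 3 * q.eval (size a + B a + 1) + 3) (by fun_prop) (by fun_prop) (fun a c hc => ?_) fun a ha => ?_
  · rw [Bool.and_eq_true, decide_eq_true_eq] at hc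
    exact sound a c.1 ((h _).2 ⟨c.2, hc⟩)
  · obtain ⟨c, h1, h2⟩ := complete a ha
    obtain ⟨y, h3, h4⟩ := (h _).1 h2
    refine ⟨(c, y), ?_, by simp only [h3, h4, decide_true, Bool.and_self]⟩
    have := eval_mono q (a := size (a, c)) (b := size a + B a + 1) (by rw [size_pair]; omega)
    rw [size_pair, size_bits, h3]
    omega

theorem co {α : Type} [Enc α] [Dec α] (H : ∀ L : List Bool → Prop, InNP L → InNP fun w => ¬L w) {A : α → Prop}
    (h : InNP A) : InNP fun a => ¬A a := by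
  obtain ⟨q, V, hV, h⟩ := h
  refine (H (fun w => ∃ a, enc a = w ∧ A a) ?_).red ⟨enc, PT.id.enc, fun a => not_congr
    ⟨fun h => ⟨a, rfl, h⟩, fun ⟨b, e, h⟩ => enc_inj e ▸ h⟩⟩
  refine InNP.of_cert' (fun w (c : α × List Bool) => enc c.1 = w ∧ c.2.length = q.eval (size c.1) ∧ V c = true)
    (i := fun _ _ => inferInstance) (fun w => w.length + 3 * q.eval w.length + 3) (by fun_prop) (by fun_prop)
    (fun w c hc => ⟨c.1, hc.1, (h _).2 ⟨c.2, hc.2⟩⟩) ?_
  rintro _ ⟨a, rfl, ha⟩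
  obtain ⟨y, h1, h2⟩ := (h _).1 ha
  refine ⟨(a, y), ?_, rfl, h1, h2⟩
  rw [size_pair, size_bits, h1]
  simp only [size]
  omega

theorem np_of_co (H : ∀ L : List Bool → Prop, InNP L → InNP fun w => ¬L w) :
    InNP fun x : Inst => CM x.1.1.arc x.1.2.arc := by
  have h1 : InNP fun p : (Gr × Gr) × List ℕ => ∃ c, size c ≤ bd p.1 ∧ ¬W p.1 p.2 c :=
    InNP.of_cert' (fun p c => size c ≤ bd p.1 ∧ ¬W p.1 p.2 c) (i := fun _ _ => inferInstance) (fun p => bd p.1)
      (PT.decide_and (i := fun _ => inferInstance) (j := fun _ => inferInstance) (by unfold bd; fun_prop)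
        (PT.decide_not (i := fun _ => inferInstance)
        (pt_W.comp (g := fun p : ((Gr × Gr) × List ℕ) × List ℕ => (p.1.1, p.1.2, p.2)) (by fun_prop))))
      (by unfold bd; fun_prop) (fun _ c h => ⟨c, h⟩) fun _ ⟨c, h⟩ => ⟨c, h.1, h⟩
  refine np_ex ((co H h1).red (A := fun p : Inst × List ℕ => ∀ c, size c ≤ bd p.1.1 → W p.1.1 p.2 c)
    ⟨fun p => (p.1.1, p.2), by fun_prop, fun p => by simp⟩) (B := fun x => bd x.1) (by unfold bd; fun_prop)
    (fun a _ h => sound a.2.1 h) fun a h => ?_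
  obtain ⟨f, h1, h2⟩ := complete h
  exact ⟨f, h1, fun c _ => h2 c⟩

theorem co_sig2 {L : List Bool → Prop} (h : InNP L) : InSig2 fun w => ¬L w := by
  obtain ⟨q, V, hV, h⟩ := h
  exact ⟨q, fun p => !V (p.1, p.2.2), by fun_prop, fun a => by
    simp only [h, not_exists, not_and, Bool.not_eq_true', Bool.not_eq_true]
    exact ⟨fun H => ⟨List.replicate _ false, List.length_replicate, H⟩, fun ⟨_, _, H⟩ => H⟩⟩

end Pool.Agent.H.MP_292d26_lc
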