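import Pool.Agent.H.MP_292d26_lc.A

namespace Pool.Agent.H.MP_292d26_lc

open Pool.Agent.Lib.CX Pool.Agent.Lib.CX2

abbrev In := List Unit × List (Cl3 ℕ)
abbrev K := ℕ × ℕ × Bool
abbrev Nd := ℕ × K × ℕ × Bool

def NN (a : In) : ℕ := a.1.length + 3 * a.2.length + 1
def BB (a : In) : ℕ := a.1.length + a.2.length + 1
def lit (C : Cl3 ℕ) (y : ℕ × Bool) : Prop := C.1 = y ∨ C.2.1 = y ∨ C.2.2 = y
def ok (a : In) (x : K) : Prop := x.1 < BB a ∧ x.2.1 < NN a ∧ (x.1 ≤ a.1.length → x.1 = x.2.1 + 1 → x.2.2 = false) ∧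
  (a.1.length < x.1 → ¬lit (a.2.getD (x.1 - a.1.length - 1) ((0, true), (0, true), (0, true))) x.2)
def isK (a : In) (x : K) : Prop := x = (BB a, 0, false) ∨ ok a x ∧ ¬(x.1 = x.2.1 + 1 ∧ x.1 ≤ a.1.length)
def val (a : In) (u : Nd) : Prop :=
  u.1 = 0 ∧ isK a u.2.1 ∧ u.2.2.1 ≤ NN a ∧ (u.2.2.1 = 0 → u.2.2.2 = false) ∨
  u.1 = 1 ∧ ok a u.2.1 ∧ u.2.2.1 = u.2.1.2.1 + 1 ∧ u.2.2.2 = false ∨
  u.1 = 2 ∧ isK a u.2.1 ∧ (u.2.2.1 = NN a + 1 ∧ u.2.2.2 = false ∨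
    u.2.2.1 ≤ NN a ∧ u.2.1.2.1 + 1 < u.2.2.1 ∧ u.2.1.1 ≠ BB a)
def pval (a : In) (p : ℕ × K) : Prop :=
  (p.1 = 0 ∨ p.1 = NN a + 1) ∧ isK a p.2 ∨ 0 < p.1 ∧ p.1 ≤ NN a ∧ p.2.1 = 0 ∧ p.2.2.1 = 0
def pr (k x : K) : Prop := x = k ∨ x = (0, k.2.1, !k.2.2)
def R (B N : ℕ) (u v : Nd) : Prop := u.2.2.1 < v.2.2.1 ∧ (u.1 = v.1 ∧ u.1 ≠ 1 ∧ u.2.1 = v.2.1 ∨
  u.1 = 1 ∧ v.1 = 1 ∧ u.2.1.1 = v.2.1.1 ∨
  u.1 = 0 ∧ v.1 = 1 ∧ u.2.2.1 ≤ u.2.1.2.1 ∧
    (u.2.1.1 = B ∧ v.2.1.1 ≠ 0 ∨ u.2.1.1 ≠ B ∧ (u.2.1.2.1 < v.2.1.2.1 ∨ pr u.2.1 v.2.1)) ∨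
  u.1 = 0 ∧ v.1 = 2 ∧ (u.2.2.1 ≤ u.2.1.2.1 ∨ v.2.2.1 = N + 1 ∧ u.2.1 ≠ v.2.1) ∨
  u.1 = 1 ∧ v.1 = 2 ∧ (v.2.1.1 = B ∧ u.2.1.1 ≠ 0 ∨ v.2.1.1 ≠ B ∧ (u.2.1.2.1 < v.2.1.2.1 ∨ pr v.2.1 u.2.1)))

instance (C y) : Decidable (lit C y) := by unfold lit; infer_instance
instance (a x) : Decidable (ok a x) := by unfold ok; infer_instance
instance (a x) : Decidable (isK a x) := by unfold isK; infer_instance
instance (a x) : Decidable (val a x) := by unfold val; infer_instance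
instance (a x) : Decidable (pval a x) := by unfold pval; infer_instance
instance (a x) : Decidable (pr a x) := by unfold pr; infer_instance
instance (B N u v) : Decidable (R B N u v) := by unfold R; infer_instance

def allK (a : In) : List K := List.range (BB a + 1) ×ˢ List.range (NN a) ×ˢ [false, true]
def vq (a : In) : List Nd := (List.range 3 ×ˢ allK a ×ˢ List.range (NN a + 2) ×ˢ [false, true]).filter (val a)
def vp (a : In) : List (ℕ × K) := (List.range (NN a + 2) ×ˢ allK a).filter (pval a)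
def PP (a : In) : Gr := mkPo (vp a) fun x y => x.1 < y.1
def QQ (a : In) : Gr := mkPo (vq a) fun u v => R (BB a) (NN a) u v

theorem pt_PQ : PT fun a => (PP a, QQ a) := by
  have n1 : PT NN := by unfold NN; fun_prop
  have n2 : PB NN := by unfold NN; fun_prop
  have b1 : PT BB := by unfold BB; fun_prop
  have b2 : PB BB := by unfold BB; fun_prop
  have h1 : PT fun p : In × K => decide (ok p.1 p.2) := by unfold ok lit NN BB; fun_prop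
  have h2 : PT fun p : In × K => decide (isK p.1 p.2) := by unfold isK ok lit NN BB; fun_prop
  have h3 : PT fun p : In × Nd => decide (val p.1 p.2) := by unfold val isK ok lit NN BB; fun_prop
  have h4 : PT fun p : In × ℕ × K => decide (pval p.1 p.2) := by unfold pval isK ok lit NN BB; fun_prop
  have h5 : PT fun p : In × Nd × Nd => decide (R (BB p.1) (NN p.1) p.2.1 p.2.2) := by unfold R pr NN BB; fun_prop
  have h6 : PT allK := by unfold allK NN BB; fun_prop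
  have h7 : PT vq := PT.filter h3 (by unfold allK NN BB; fun_prop)
  have h8 : PT vp := PT.filter h4 (by unfold allK NN BB; fun_prop)
  exact (PT.mkGr h8 (PT.filter (by fun_prop) (h8.product h8))).pair (PT.mkGr h7 (PT.filter h5 (h7.product h7)))

end Pool.Agent.H.MP_292d26_lc
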