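import Pool.Agent.H.MP_292d26_lc.B

namespace Pool.Agent.H.MP_292d26_lc

open Pool.Agent.Lib.CX Pool.Agent.Lib.CX2

theorem mem_allK {a x} : x ∈ allK a ↔ x.1 ≤ BB a ∧ x.2.1 < NN a := by
  obtain ⟨t, i, s⟩ := x
  cases s <;> simp [allK]

theorem isK_all {a x} (h : isK a x) : x ∈ allK a := by
  rcases h with rfl | h
  · simp [mem_allK, NN]
  · exact mem_allK.2 ⟨h.1.1.le, h.1.2.1⟩

theorem mem_vq {a u} : u ∈ vq a ↔ val a u := by
  obtain ⟨g, k, l, s⟩ := u
  simp only [vq, List.mem_filter, decide_eq_true_eq, and_iff_right_iff_imp, List.mem_product, List.mem_range]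
  have : s ∈ [false, true] := by cases s <;> simp
  rintro (h | h | h)
  · exact ⟨by grind, isK_all h.2.1, by grind, this⟩
  · exact ⟨by grind, mem_allK.2 ⟨h.2.1.1.le, h.2.1.2.1⟩, by have := h.2.1.2.1; grind, this⟩
  · exact ⟨by grind, isK_all h.2.1, by grind, this⟩

theorem mem_vp {a p} : p ∈ vp a ↔ pval a p := by
  obtain ⟨l, k⟩ := p
  simp only [vp, List.mem_filter, decide_eq_true_eq, and_iff_right_iff_imp, List.mem_product, List.mem_range]
  rintro (h | h)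
  · exact ⟨by grind, isK_all h.2⟩
  · exact ⟨by grind, mem_allK.2 ⟨by grind, by grind [NN]⟩⟩

theorem val_le {a u} (h : val a u) : u.2.2.1 ≤ NN a + 1 ∧ (u.1 = 1 → u.2.2.1 = u.2.1.2.1 + 1) := by
  grind [val, ok]

theorem R_trans {B N : ℕ} {u v w : Nd} (hu : u.1 = 1 → u.2.2.1 = u.2.1.2.1 + 1) (hv : v.1 = 1 → v.2.2.1 = v.2.1.2.1 + 1)
    (hw : w.1 = 1 → w.2.2.1 = w.2.1.2.1 + 1) (hw' : w.2.2.1 ≤ N + 1) (h1 : R B N u v) (h2 : R B N v w) :
    R B N u w := by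
  obtain ⟨g, ⟨t, i, s⟩, l, b⟩ := u
  obtain ⟨g', ⟨t', i', s'⟩, l', b'⟩ := v
  obtain ⟨g'', ⟨t'', i'', s''⟩, l'', b''⟩ := w
  simp only [R, pr, Prod.mk.injEq, ne_eq] at *
  refine ⟨h1.1.trans h2.1, ?_⟩
  obtain ⟨a1, h1 | h1 | h1 | h1 | h1⟩ := h1 <;> obtain ⟨a2, h2 | h2 | h2 | h2 | h2⟩ := h2 <;> grind

theorem tq (a : In) : ∀ u ∈ vq a, ∀ v ∈ vq a, ∀ w ∈ vq a, decide (R (BB a) (NN a) u v) →
    decide (R (BB a) (NN a) v w) → decide (R (BB a) (NN a) u w) := by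
  simp only [decide_eq_true_eq, mem_vq]
  exact fun u hu v hv w hw => R_trans (val_le hu).2 (val_le hv).2 (val_le hw).2 (val_le hw).1

theorem rq (a : In) (u v : Nd) (h : decide (R (BB a) (NN a) u v)) : u.2.2.1 < v.2.2.1 := (of_decide_eq_true h).1

theorem po (a : In) : IsPo (PP a) ∧ IsPo (QQ a) :=
  ⟨mkPo_po (vp a) (fun x y => x.1 < y.1) Prod.fst (by simp)
    (by simp only [decide_eq_true_eq]; exact fun _ _ _ _ _ _ => lt_trans),
    mkPo_po (vq a) (fun u v => R (BB a) (NN a) u v) (fun u => u.2.2.1) (rq a) (tq a)⟩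

def Good (a : In) : Prop := ∃ f : Nd → ℕ × K, (∀ u, val a u → pval a (f u)) ∧
  ∀ w : ℕ → ℕ × K, (∀ l ≤ NN a + 1, pval a (w l) ∧ (w l).1 = l) → ∃ g : ℕ → Nd,
    (∀ l ≤ NN a + 1, val a (g l) ∧ (g l).2.2.1 = l ∧ f (g l) = w l) ∧
      ∀ l l', l < l' → l' ≤ NN a + 1 → R (BB a) (NN a) (g l) (g l')

theorem cm_iff (a : In) : CM (PP a).arc (QQ a).arc ↔ Good a := by
  refine (full_mk (vp a) (vq a) (fun u v => R (BB a) (NN a) u v) Prod.fst (fun u => u.2.2.1) (NN a + 1) ?_ ?_ ?_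
    (rq a) (fun u hu => (val_le (mem_vq.1 hu)).1) (tq a)).trans ?_
  · simp only [mem_vp]; grind [pval]
  · intro l hl
    by_cases h : l = 0 ∨ l = NN a + 1
    · exact ⟨(l, BB a, 0, false), mem_vp.2 (.inl ⟨h, .inl rfl⟩), rfl⟩
    · exact ⟨(l, 0, 0, false), mem_vp.2 (.inr (by grind)), rfl⟩
  · exact ⟨(0, (BB a, 0, false), 0, false), mem_vq.2 (.inl ⟨rfl, .inl rfl, Nat.zero_le _, fun _ => rfl⟩)⟩
  · simp only [Good, mem_vp, mem_vq, decide_eq_true_eq]

theorem surj {κ α : Type} (S : Finset κ) (F G : κ → α) (hG : Function.Injective G)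
    (h : ∀ k ∈ S, ∃ k' ∈ S, F k' = G k) : Set.InjOn F S ∧ ∀ k ∈ S, ∃ k' ∈ S, F k = G k' := by
  classical
  have h1 : S.image G ⊆ S.image F := Finset.image_subset_iff.2 fun k hk => Finset.mem_image.2 (h k hk)
  have h2 : (S.image G).card = S.card := Finset.card_image_of_injective _ hG
  have h3 := Finset.eq_of_subset_of_card_le h1 (h2 ▸ Finset.card_image_le)
  refine ⟨Finset.injOn_of_card_image_eq (h3 ▸ h2), fun k hk => ?_⟩
  obtain ⟨k', a, b⟩ := Finset.mem_image.1 (h3 ▸ Finset.mem_image_of_mem F hk)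
  exact ⟨k', a, b.symm⟩

theorem words {a} (h : Good a) : ∃ lab : K → Bool, ∀ k, isK a k → ∀ b : ℕ → Bool, ∃ g : ℕ → Nd,
    g 0 = (0, k, 0, false) ∧ g (NN a + 1) = (2, k, NN a + 1, false) ∧
    (∀ l ≤ NN a + 1, val a (g l) ∧ (g l).2.2.1 = l) ∧ (∀ i < NN a, (g (i + 1)).1 = 1 → lab (g (i + 1)).2.1 = b i) ∧
      ∀ l l', l < l' → l' ≤ NN a + 1 → R (BB a) (NN a) (g l) (g l') := by
  obtain ⟨f, -, h⟩ := h
  have key : ∀ k k', isK a k → isK a k' → ∀ b : ℕ → Bool, ∃ g : ℕ → Nd, ∃ j j', isK a j ∧ isK a j' ∧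
      g 0 = (0, j, 0, false) ∧ g (NN a + 1) = (2, j', NN a + 1, false) ∧ f (g 0) = (0, k) ∧
      f (g (NN a + 1)) = (NN a + 1, k') ∧ (∀ l ≤ NN a + 1, val a (g l) ∧ (g l).2.2.1 = l) ∧
      (∀ i < NN a, f (g (i + 1)) = (i + 1, 0, 0, b i)) ∧
      ∀ l l', l < l' → l' ≤ NN a + 1 → R (BB a) (NN a) (g l) (g l') := fun k k' hk hk' b => by
    obtain ⟨g, h1, h2⟩ := h (fun l => (l, if l = 0 then k else if l = NN a + 1 then k' else (0, 0, b (l - 1))))
      fun l hl => ⟨by grind [pval], rfl⟩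
    obtain ⟨a1, a2, a3⟩ := h1 0 (Nat.zero_le _)
    obtain ⟨b1, b2, b3⟩ := h1 _ le_rfl
    refine ⟨g, (g 0).2.1, (g (NN a + 1)).2.1, by grind [val], by grind [val, ok], by ext <;> grind [val],
      by ext <;> grind [val, ok], by simpa using a3, by simpa using b3, fun l hl => ⟨(h1 l hl).1, (h1 l hl).2.1⟩,
      fun i hi => ?_, h2⟩
    rw [(h1 _ (by omega)).2.2]
    simp [hi.ne]
  classical
  set S := (allK a).toFinset.filter (isK a)
  have hS : ∀ k, k ∈ S ↔ isK a k := fun k => by simpa [S] using isK_all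
  obtain ⟨c1, c2⟩ := surj S (fun k => f (0, k, 0, false)) (fun k => (0, k)) (fun _ _ h => (Prod.mk.inj h).2)
    fun k hk => by
      obtain ⟨g, j, -, h1, -, h2, -, h3, -⟩ := key k k ((hS _).1 hk) ((hS _).1 hk) fun _ => true
      exact ⟨j, (hS _).2 h1, h2 ▸ h3⟩
  obtain ⟨d1, d2⟩ := surj S (fun k => f (2, k, NN a + 1, false)) (fun k => (NN a + 1, k))
    (fun _ _ h => (Prod.mk.inj h).2) fun k hk => by
      obtain ⟨g, -, j, -, h1, -, h2, -, h3, -⟩ := key k k ((hS _).1 hk) ((hS _).1 hk) fun _ => true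
      exact ⟨j, (hS _).2 h1, h2 ▸ h3⟩
  refine ⟨fun x => (f (1, x, x.2.1 + 1, false)).2.2.2, fun k hk b => ?_⟩
  obtain ⟨p, p1, p2⟩ := c2 k ((hS _).2 hk)
  obtain ⟨q, q1, q2⟩ := d2 k ((hS _).2 hk)
  obtain ⟨g, j, j', h1, h2, h3, h4, h5, h6, h7, h8, h9⟩ := key p q ((hS _).1 p1) ((hS _).1 q1) b
  obtain rfl : j = k := c1 ((hS _).2 h1) ((hS _).2 hk) ((h3 ▸ h5).trans p2.symm)
  obtain rfl : j' = j := d1 ((hS _).2 h2) ((hS _).2 hk) ((h4 ▸ h6).trans q2.symm)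
  refine ⟨g, h3, h4, h7, fun i hi e => ?_, h9⟩
  have : g (i + 1) = (1, (g (i + 1)).2.1, (g (i + 1)).2.1.2.1 + 1, false) := by
    have := (h7 (i + 1) (by omega)).1
    ext <;> grind [val]
  beta_reduce
  rw [← this, h8 i hi]

theorem mid {a k u} (hk : k.1 ≠ BB a) (h : val a u) (hl : u.2.2.1 = k.2.1 + 1)
    (h1 : R (BB a) (NN a) (0, k, 0, false) u) (h2 : R (BB a) (NN a) u (2, k, NN a + 1, false)) :
    u.1 = 1 ∧ pr k u.2.1 := by
  obtain ⟨g, ⟨t, i, s⟩, l, b⟩ := u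
  obtain ⟨t', i', s'⟩ := k
  simp only [R, pr, val, Prod.mk.injEq, ne_eq] at *
  grind

theorem mid0 {a u} (h : val a u) (h1 : R (BB a) (NN a) (0, (BB a, 0, false), 0, false) u)
    (h2 : R (BB a) (NN a) u (2, (BB a, 0, false), NN a + 1, false)) : u.1 = 1 ∧ u.2.1.1 ≠ 0 := by
  obtain ⟨g, ⟨t, i, s⟩, l, b⟩ := u
  simp only [R, pr, val, Prod.mk.injEq, ne_eq] at *
  grind

theorem not_q3 {a} (hv : ∀ C ∈ a.2, ∀ x ∈ C.vars, x < a.1.length + 3 * a.2.length) (h : Good a) :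
    ¬Q3 a.1.length a.2 := fun H => by
  obtain ⟨lab, h⟩ := words h
  have f1 : ∀ k, ok a k → ¬(k.1 = k.2.1 + 1 ∧ k.1 ≤ a.1.length) → lab k ≠ lab (0, k.2.1, !k.2.2) := fun k h1 h2 e => by
    obtain ⟨g, a1, a2, a3, a4, a5⟩ := h k (.inr ⟨h1, h2⟩) fun _ => !lab k
    have l := h1.2.1
    obtain ⟨b1, b2⟩ := mid h1.1.ne (a3 (k.2.1 + 1) (by omega)).1 (a3 _ (by omega)).2
      (a1 ▸ a5 0 _ (by omega) (by omega)) (a2 ▸ a5 _ _ (by omega) le_rfl)
    have := a4 _ l b1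
    rcases b2 with b2 | b2 <;> rw [b2] at this
    · simp at this
    · simp [e] at this
  have f0 : ∀ i < NN a, ∀ s, lab (0, i, s) ≠ lab (0, i, !s) := fun i hi s =>
    f1 (0, i, s) (by grind [ok, BB]) (by simp)
  have f2 : ∀ i < NN a, ∀ s s', lab (0, i, s) = lab (0, i, s') → s = s' := fun i hi s s' e => by
    have := f0 i hi true
    cases s <;> cases s' <;> simp_all
  obtain ⟨v, h1, h2⟩ := H fun j => decide (lab (0, j, true) ≠ lab (j + 1, j, false))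
  obtain ⟨g, a1, a2, a3, a4, a5⟩ := h _ (.inl rfl) fun i => lab (0, i, v i)
  have m : ∀ i < NN a, (g (i + 1)).1 = 1 ∧ (g (i + 1)).2.1.1 ≠ 0 := fun i hi =>
    mid0 (a3 _ (by omega)).1 (a1 ▸ a5 0 _ (by omega) (by omega)) (a2 ▸ a5 _ _ (by omega) le_rfl)
  have n0 : 0 < NN a := Nat.succ_pos _
  obtain ⟨t, ht⟩ : ∃ t, ∀ i < NN a, ∃ s, ok a (t, i, s) ∧ t ≠ 0 ∧ lab (t, i, s) = lab (0, i, v i) := by
    refine ⟨(g 1).2.1.1, fun i hi => ?_⟩
    have e : (g (i + 1)).2.1 = ((g 1).2.1.1, i, (g (i + 1)).2.1.2.2) := by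
      have b1 := a3 (i + 1) (by omega)
      have b2 := m i hi
      have b3 := m 0 n0
      have b4 := a5 1 (i + 1)
      rcases Nat.eq_zero_or_pos i with rfl | c
      · clear * - b1 b2; ext <;> grind [val]
      · clear * - b1 b2 b3 b4 c hi; ext <;> grind [val, R]
    have b1 := a3 (i + 1) (by omega)
    have b2 := m i hi
    exact ⟨_, e ▸ by grind [val], (m 0 n0).2, e ▸ a4 i hi b2.1⟩
  obtain ⟨s0, o0, t0, -⟩ := ht 0 n0
  by_cases c : t ≤ a.1.length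
  · obtain ⟨j, rfl⟩ := Nat.exists_eq_succ_of_ne_zero t0
    have hj : j < NN a := by grind [NN]
    obtain ⟨s, o, -, e⟩ := ht j hj
    obtain rfl : s = false := o.2.2.1 c rfl
    rw [h1 j c] at e
    have := f0 j hj true
    clear * - e this
    by_cases e' : lab (0, j, true) = lab (j + 1, j, false) <;> simp_all
  · have l : t - a.1.length - 1 < a.2.length := by have := o0.1; grind [BB]
    have hC := List.getElem_mem l
    have : ∀ y : ℕ × Bool, y.1 ∈ a.2[t - a.1.length - 1].vars → lit a.2[t - a.1.length - 1] y → v y.1 ≠ y.2 :=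
      fun y hy hl e => by
        have hi : y.1 < NN a := (hv _ hC _ hy).trans (Nat.lt_succ_self _)
        obtain ⟨s, o, -, e'⟩ := ht _ hi
        have b1 : lab (t, y.1, s) ≠ lab (0, y.1, !s) := f1 _ o fun h => c h.2
        have b2 := f0 _ hi s
        obtain rfl : s = v y.1 := f2 _ hi _ _ (by rw [← e', Bool.eq_not.2 b1, Bool.eq_not.2 b2])
        refine o.2.2.2 (not_le.1 c) ?_
        rwa [List.getD_eq_getElem _ _ l, e]
    rcases h2 _ hC with e | e | e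
    · exact this _ (by simp [Cl3.vars]) (.inl rfl) e
    · exact this _ (by simp [Cl3.vars]) (.inr (.inl rfl)) e
    · exact this _ (by simp [Cl3.vars]) (.inr (.inr rfl)) e

theorem good {a} (H : ¬Q3 a.1.length a.2) : Good a := by
  simp only [Q3, not_forall, not_exists, not_and] at H
  obtain ⟨x, H⟩ := H
  refine ⟨fun u => (u.2.2.1, if u.2.2.1 = 0 ∨ u.2.2.1 = NN a + 1 then u.2.1 else (0, 0, if u.1 = 1 then
    (if u.2.1.1 = u.2.1.2.1 + 1 ∧ u.2.1.1 ≤ a.1.length then !x u.2.1.2.1 else u.2.1.2.2) else u.2.2.2)),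
    fun u hu => by grind [val, pval, ok], fun w hw => ?_⟩
  have n0 : 0 < NN a := Nat.succ_pos _
  obtain ⟨k, hk, w0⟩ : ∃ k, isK a k ∧ w 0 = (0, k) :=
    ⟨(w 0).2, by have := hw 0; grind [pval], by have := hw 0; ext <;> grind⟩
  obtain ⟨k', hk', w1⟩ : ∃ k, isK a k ∧ w (NN a + 1) = (NN a + 1, k) :=
    ⟨(w (NN a + 1)).2, by have := hw (NN a + 1); grind [pval], by have := hw (NN a + 1); ext <;> grind⟩
  obtain ⟨b, wb⟩ : ∃ b : ℕ → Bool, ∀ l, 0 < l → l ≤ NN a → w l = (l, 0, 0, b l) :=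
    ⟨fun l => (w l).2.2.2, fun l h1 h2 => by have := hw l; ext <;> grind [pval]⟩
  by_cases e : k = k'
  swap
  · refine ⟨fun l => if l = NN a + 1 then (2, k', l, false) else (0, k, l, if l = 0 then false else b l),
      fun l hl => ?_, fun l l' h1 h2 => by grind [R]⟩
    have := wb l
    grind [val]
  subst e
  rcases hk with rfl | ⟨h1, h2⟩
  · obtain ⟨t, s, ht, h⟩ : ∃ t, ∃ s : ℕ → Bool, t ≠ 0 ∧ ∀ i < NN a, ok a (t, i, s i) ∧
        (if t = i + 1 ∧ t ≤ a.1.length then !x i else s i) = b (i + 1) := by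
      by_cases c : ∀ i < a.1.length, b (i + 1) = x i
      · obtain ⟨C, hC, h⟩ := H (fun i => b (i + 1)) c
        obtain ⟨j, hj, rfl⟩ := List.getElem_of_mem hC
        refine ⟨a.1.length + 1 + j, fun i => b (i + 1), by omega, fun i hi => ⟨⟨by grind [BB], hi, by grind, fun _ => ?_⟩,
          by grind⟩⟩
        have : a.1.length + 1 + j - a.1.length - 1 = j := by omega
        simp only [this, List.getD_eq_getElem _ _ hj]
        grind [lit, Cl3.ok]
      · push Not at c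
        obtain ⟨j, hj, c⟩ := c
        exact ⟨j + 1, fun i => if i = j then false else b (i + 1), by omega, fun i hi =>
          ⟨⟨by grind [BB], hi, by grind, by grind⟩, by have := Bool.eq_not.2 c; clear * - this hj; grind⟩⟩
    refine ⟨fun l => if l = NN a + 1 then (2, (BB a, 0, false), l, false) else if l = 0 then
      (0, (BB a, 0, false), 0, false) else (1, (t, l - 1, s (l - 1)), l, false), fun l hl => ?_,
      fun l l' h1 h2 => by grind [R]⟩
    have := wb l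
    have := h (l - 1)
    grind [val]
  · have o : ok a (0, k.2.1, !k.2.2) := by grind [ok, BB]
    have := h1.1
    have := h1.2.1
    refine ⟨fun l => if l ≤ k.2.1 then (0, k, l, if l = 0 then false else b l) else if l = k.2.1 + 1 then
      (1, if b l = k.2.2 then k else (0, k.2.1, !k.2.2), l, false) else (2, k, l, if l = NN a + 1 then false else b l),
      fun l hl => ?_, fun l l' h1 h2 => by grind [R, pr]⟩
    have h3 := wb l
    obtain ⟨t, i, s⟩ := k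
    have h4 : isK a (t, i, s) := .inr ⟨h1, h2⟩
    clear H hw
    rcases lt_trichotomy l (i + 1) with c | rfl | c
    · grind [val]
    · cases s <;> cases e : b (i + 1) <;> grind [val]
    · grind [val]

theorem hard : Sig2Hard fun x : Inst => CM x.1.1.arc x.1.2.arc :=
  Sig2Hard.of_q3 (fun a => ⟨(PP a, QQ a), po a⟩) (pt_PQ.subtype _) fun n φ h =>
    ⟨fun H => (cm_iff _).2 (good (a := (n, φ)) H), fun H => not_q3 (a := (n, φ)) h ((cm_iff _).1 H)⟩

end Pool.Agent.H.MP_292d26_lc
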